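import Pool.Agent.H15.G.R_seed8.TH763.DB.Defs
import Pool.Agent.H15.G.R_seed8.TH763.DB.Pade

/-! Collision of four points of multiplicity `m`, all groups at once. -/

namespace Pool.Agent.TH763.DB

open Finset Pool.Agent.TH176.Nag Pool.Agent.TH603.Sur

section
variable {K : Type} [Field K] [CharZero K]

/-- the exponential series of `s X` -/
noncomputable def ee (s : K) : PowerSeries K := PowerSeries.rescale s (PowerSeries.exp K)

theorem ee_add (s t : K) : ee s * ee t = ee (s + t) := PowerSeries.exp_mul_exp_eq_exp_add s t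

theorem ee_zero : ee (0 : K) = 1 := by
  unfold ee
  rw [PowerSeries.rescale_zero]
  simp

theorem ee_const (s : K) : PowerSeries.constantCoeff (ee s) = 1 := by
  unfold ee
  rw [← PowerSeries.coeff_zero_eq_constantCoeff_apply, PowerSeries.coeff_rescale]
  simp

theorem norm_fam {α : Type} {S : Finset α} (G : α → PowerSeries K) (h : ∃ u ∈ S, G u ≠ 0) :
    ∃ (v : ℕ) (H : α → PowerSeries K), (∀ u ∈ S, G u = PowerSeries.X ^ v * H u) ∧
      ∃ u ∈ S, PowerSeries.constantCoeff (H u) ≠ 0 := by
  classical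
  have hex : ∃ n : ℕ, ∃ u ∈ S, PowerSeries.coeff n (G u) ≠ 0 := by
    obtain ⟨u, hu, hne⟩ := h
    by_contra hcon
    push Not at hcon
    apply hne
    ext n
    rw [hcon n u hu, map_zero]
  have hdvd : ∀ u ∈ S, (PowerSeries.X : PowerSeries K) ^ (Nat.find hex) ∣ G u := by
    intro u hu
    rw [PowerSeries.X_pow_dvd_iff]
    intro j hj
    have := Nat.find_min hex hj
    push Not at this
    exact this u hu
  choose! H hH using hdvd
  refine ⟨Nat.find hex, H, hH, ?_⟩
  obtain ⟨u, hu, hne⟩ := Nat.find_spec hex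
  refine ⟨u, hu, ?_⟩
  rw [hH u hu, ← PowerSeries.coeff_zero_eq_constantCoeff_apply] at *
  have := PowerSeries.coeff_X_pow_mul (H u) (Nat.find hex) 0
  rw [zero_add] at this
  rw [← this]
  exact hne

abbrev LL (K : Type) [Field K] : Type := FractionRing (PowerSeries K)

/-- the embedding of power series -/
noncomputable abbrev io (K : Type) [Field K] : PowerSeries K →+* LL K := algebraMap (PowerSeries K) (LL K)

theorem io_inj : Function.Injective (io K) := IsFractionRing.injective (PowerSeries K) (LL K)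

theorem ee_pow (s : K) (n : ℕ) : ee s ^ n = ee ((n : K) * s) := by
  induction n with
  | zero => simp [ee_zero]
  | succ n ih =>
    rw [pow_succ, ih, ee_add]
    congr 1
    push_cast
    ring

theorem io_ee_ne (s : K) : io K (ee s) ≠ 0 := by
  intro h
  have h1 : ee s = 0 := io_inj (by rw [h, map_zero])
  have h2 := ee_const s
  rw [h1, map_zero] at h2
  exact zero_ne_one h2

theorem ee_zpow (s : K) (n : ℤ) : io K (ee s) ^ n = io K (ee ((n : K) * s)) := by
  obtain ⟨k, rfl | rfl⟩ := n.eq_nat_or_neg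
  · rw [zpow_natCast, ← map_pow, ee_pow]
    simp
  · rw [zpow_neg, zpow_natCast, ← map_pow, ee_pow]
    apply inv_eq_of_mul_eq_one_right
    rw [← map_mul, ee_add]
    have : (k : K) * s + ((-(k : ℤ) : ℤ) : K) * s = 0 := by push_cast; ring
    rw [this, ee_zero, map_one]

theorem mono_val {x y : K} (hx : x ≠ 0) (hy : y ≠ 0) (s1 s2 : K) (u : ℤ × ℤ) :
    io K (PowerSeries.C x * ee s1) ^ u.1 * io K (PowerSeries.C y * ee s2) ^ u.2 =
      io K (PowerSeries.C (x ^ u.1 * y ^ u.2) * ee ((u.1 : K) * s1 + (u.2 : K) * s2)) := by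
  have hC : ∀ (z : K) (n : ℤ), io K (PowerSeries.C z) ^ n = io K (PowerSeries.C (z ^ n)) := by
    intro z n
    exact (map_zpow₀ ((io K).comp (PowerSeries.C (R := K))) z n).symm
  rw [map_mul, map_mul, mul_zpow, mul_zpow, hC, hC, ee_zpow, ee_zpow, map_mul, map_mul, map_mul,
    ← ee_add, map_mul]
  ring

theorem pr_eq_sum {L : Type} [Field L] {F : (ℤ × ℤ) →₀ L} {S : Finset (ℤ × ℤ)} (hF : F.support ⊆ S)
    (x y : L) (P : L × L → L) :
    pr F x y P = ∑ u ∈ S, F u * P ((u.1 : L), (u.2 : L)) * (x ^ u.1 * y ^ u.2) := by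
  unfold pr
  exact Finsupp.sum_of_support_subset F hF _ (by intros; ring)

/-- the conditions at one of the four points -/
theorem sum_zero {x y : K} (hx : x ≠ 0) (hy : y ≠ 0) {D E : K × K} {a b : K} {m : ℕ}
    {F : (ℤ × ℤ) →₀ LL K} {S : Finset (ℤ × ℤ)} {H : ℤ × ℤ → PowerSeries K} (hF : F.support ⊆ S)
    (hH : ∀ u ∈ S, F u = io K (H u))
    (hL : LM F (io K (PowerSeries.C x * ee (a * D.1 + b * E.1)))
      (io K (PowerSeries.C y * ee (a * D.2 + b * E.2))) m) {i j : ℕ} (hij : i + j < m) :
    ∑ u ∈ S, H u * (PowerSeries.C (x ^ u.1 * y ^ u.2 * (lin D ((u.1 : K), (u.2 : K)) ^ i *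
      lin E ((u.1 : K), (u.2 : K)) ^ j)) *
      ee (a * lin D ((u.1 : K), (u.2 : K)) + b * lin E ((u.1 : K), (u.2 : K)))) = 0 := by
  have h1 := PF_comp_aff (mem_PF_mono (K := LL K) hij) 0 (io K (PowerSeries.C D.1))
    (io K (PowerSeries.C D.2)) 0 (io K (PowerSeries.C E.1)) (io K (PowerSeries.C E.2))
  have h2 := hL _ h1
  rw [pr_eq_sum hF] at h2
  apply io_inj
  rw [map_zero, map_sum, ← h2]
  refine sum_congr rfl fun u hu => ?_
  rw [mono_val hx hy, hH u hu]
  have hc : ∀ z : ℤ, ((z : ℤ) : LL K) = io K (PowerSeries.C (z : K)) := by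
    intro z
    simp
  have e1 : ∀ G : K × K, 0 + io K (PowerSeries.C G.1) * ((u.1 : ℤ) : LL K) +
      io K (PowerSeries.C G.2) * ((u.2 : ℤ) : LL K) =
      io K (PowerSeries.C (lin G ((u.1 : K), (u.2 : K)))) := by
    intro G
    unfold lin
    rw [hc, hc, zero_add]
    simp only [map_add, map_mul]
  simp only
  rw [e1, e1]
  have e2 : (u.1 : K) * (a * D.1 + b * E.1) + (u.2 : K) * (a * D.2 + b * E.2) =
      a * lin D ((u.1 : K), (u.2 : K)) + b * lin E ((u.1 : K), (u.2 : K)) := by
    unfold lin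
    ring
  rw [e2]
  simp only [map_mul, map_pow]
  ring

/-- `rescale` of a polynomial as a finite sum -/
theorem rescale_poly (A : Polynomial K) {d : ℕ} (hA : A.natDegree ≤ d) (s : K) :
    PowerSeries.rescale s (A : PowerSeries K) =
      ∑ i ∈ range (d + 1), PowerSeries.C (A.coeff i * s ^ i) * PowerSeries.X ^ i := by
  ext n
  rw [PowerSeries.coeff_rescale, Polynomial.coeff_coe, map_sum]
  simp only [PowerSeries.coeff_C_mul, PowerSeries.coeff_X_pow, mul_ite, mul_one, mul_zero]
  rw [Finset.sum_ite_eq]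
  split_ifs with h
  · ring
  · rw [Polynomial.coeff_eq_zero_of_natDegree_lt, mul_zero]
    rw [mem_range] at h
    omega

/-- sums with two rescaled polynomials vanish -/
theorem sum_poly_zero {S : Finset (ℤ × ℤ)} {T : ℤ × ℤ → PowerSeries K} {f g : ℤ × ℤ → K} {m : ℕ}
    (h : ∀ i j, i + j < m → ∑ u ∈ S, T u * PowerSeries.C (f u ^ i * g u ^ j) = 0)
    (A B : Polynomial K) {d e : ℕ} (hA : A.natDegree ≤ d) (hB : B.natDegree ≤ e) (hde : d + e < m) :
    ∑ u ∈ S, T u * (PowerSeries.rescale (f u) (A : PowerSeries K) *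
      PowerSeries.rescale (g u) (B : PowerSeries K)) = 0 := by
  have h1 : ∀ u ∈ S, T u * (PowerSeries.rescale (f u) (A : PowerSeries K) *
      PowerSeries.rescale (g u) (B : PowerSeries K)) =
      ∑ i ∈ range (d + 1), ∑ j ∈ range (e + 1),
        (PowerSeries.C (A.coeff i * B.coeff j) * PowerSeries.X ^ (i + j)) *
          (T u * PowerSeries.C (f u ^ i * g u ^ j)) := by
    intro u _
    rw [rescale_poly A hA, rescale_poly B hB, sum_mul_sum, mul_sum]
    refine sum_congr rfl fun i _ => ?_
    rw [mul_sum]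
    refine sum_congr rfl fun j _ => ?_
    simp only [map_mul, map_pow, pow_add]
    ring
  rw [sum_congr rfl h1, sum_comm]
  refine sum_eq_zero fun i hi => ?_
  rw [sum_comm]
  refine sum_eq_zero fun j hj => ?_
  rw [mem_range] at hi hj
  rw [← mul_sum, h i j (by omega), mul_zero]

/-- the limit conditions -/
theorem limit_cond {S : Finset (ℤ × ℤ)} {G : ℤ × ℤ → PowerSeries K} {z : ℤ × ℤ → K}
    {f g : ℤ × ℤ → K} {m : ℕ}
    (h : ∀ a b : Fin 2, ∀ i j, i + j < m → ∑ u ∈ S, G u * (PowerSeries.C (z u * (f u ^ i * g u ^ j)) *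
      ee (((a : ℕ) : K) * f u + ((b : ℕ) : K) * g u)) = 0) {k l : ℕ} (hkl : k / 2 + l / 2 < m) :
    ∑ u ∈ S, PowerSeries.constantCoeff (G u) * (z u * (f u ^ k * g u ^ l)) = 0 := by
  obtain ⟨A, B, hA, hB, hAB, hAB'⟩ := pade K k
  obtain ⟨A', B', hA', hB', hAB1, hAB1'⟩ := pade K l
  -- divisibility
  have hdiv : ∀ (C : PowerSeries K) (k : ℕ), (∀ j < k, PowerSeries.coeff j C = 0) →
      PowerSeries.coeff k C = 1 → ∀ s : K, ∃ Ψ : PowerSeries K,
        PowerSeries.rescale s C = PowerSeries.X ^ k * Ψ ∧ PowerSeries.constantCoeff Ψ = s ^ k := by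
    intro C k h0 h1 s
    have h2 : (PowerSeries.X : PowerSeries K) ^ k ∣ PowerSeries.rescale s C := by
      rw [PowerSeries.X_pow_dvd_iff]
      intro j hj
      rw [PowerSeries.coeff_rescale, h0 j hj, mul_zero]
    obtain ⟨Ψ, hΨ⟩ := h2
    refine ⟨Ψ, hΨ, ?_⟩
    have h3 := PowerSeries.coeff_X_pow_mul Ψ k 0
    rw [zero_add, ← hΨ, PowerSeries.coeff_rescale, h1, mul_one] at h3
    rw [← PowerSeries.coeff_zero_eq_constantCoeff_apply, ← h3]
  choose Ψ hΨ hΨ' using hdiv _ k hAB hAB'
  choose Ψ' hΨ1 hΨ1' using hdiv _ l hAB1 hAB1'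
  -- the sum vanishes
  have key : ∑ u ∈ S, G u * PowerSeries.C (z u) *
      (PowerSeries.rescale (f u) ((A : PowerSeries K) + (B : PowerSeries K) * PowerSeries.exp K) *
        PowerSeries.rescale (g u) ((A' : PowerSeries K) + (B' : PowerSeries K) * PowerSeries.exp K)) = 0 := by
    have hs : ∀ a b : Fin 2, ∀ P Q : Polynomial K, P.natDegree ≤ k / 2 → Q.natDegree ≤ l / 2 →
        ∑ u ∈ S, (G u * PowerSeries.C (z u) * ee (((a : ℕ) : K) * f u + ((b : ℕ) : K) * g u)) *
          (PowerSeries.rescale (f u) (P : PowerSeries K) *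
            PowerSeries.rescale (g u) (Q : PowerSeries K)) = 0 := by
      intro a b P Q hP hQ
      refine sum_poly_zero (m := m) ?_ P Q hP hQ hkl
      intro i j hij
      rw [← h a b i j hij]
      refine sum_congr rfl fun u _ => ?_
      simp only [map_mul]
      ring
    have h00 := hs 0 0 A A' hA hA'
    have h01 := hs 0 1 A B' hA hB'
    have h10 := hs 1 0 B A' hB hA'
    have h11 := hs 1 1 B B' hB hB'
    have e1 : ∀ u, G u * PowerSeries.C (z u) *
      (PowerSeries.rescale (f u) ((A : PowerSeries K) + (B : PowerSeries K) * PowerSeries.exp K) *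
        PowerSeries.rescale (g u) ((A' : PowerSeries K) + (B' : PowerSeries K) * PowerSeries.exp K)) =
      (G u * PowerSeries.C (z u) * ee ((((0 : Fin 2) : ℕ) : K) * f u + (((0 : Fin 2) : ℕ) : K) * g u)) *
          (PowerSeries.rescale (f u) (A : PowerSeries K) * PowerSeries.rescale (g u) (A' : PowerSeries K)) +
      (G u * PowerSeries.C (z u) * ee ((((0 : Fin 2) : ℕ) : K) * f u + (((1 : Fin 2) : ℕ) : K) * g u)) *
          (PowerSeries.rescale (f u) (A : PowerSeries K) * PowerSeries.rescale (g u) (B' : PowerSeries K)) +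
      (G u * PowerSeries.C (z u) * ee ((((1 : Fin 2) : ℕ) : K) * f u + (((0 : Fin 2) : ℕ) : K) * g u)) *
          (PowerSeries.rescale (f u) (B : PowerSeries K) * PowerSeries.rescale (g u) (A' : PowerSeries K)) +
      (G u * PowerSeries.C (z u) * ee ((((1 : Fin 2) : ℕ) : K) * f u + (((1 : Fin 2) : ℕ) : K) * g u)) *
          (PowerSeries.rescale (f u) (B : PowerSeries K) * PowerSeries.rescale (g u) (B' : PowerSeries K)) := by
      intro u
      simp only [Fin.val_zero, Fin.val_one, Nat.cast_zero, Nat.cast_one, zero_mul, one_mul, zero_add,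
        add_zero, ee_zero, ← ee_add]
      rw [map_add, map_add, map_mul, map_mul, show PowerSeries.rescale (f u) (PowerSeries.exp K) = ee (f u) from rfl,
        show PowerSeries.rescale (g u) (PowerSeries.exp K) = ee (g u) from rfl]
      ring
    rw [sum_congr rfl fun u _ => e1 u, sum_add_distrib, sum_add_distrib, sum_add_distrib, h00, h01,
      h10, h11]
    simp
  have key2 : (PowerSeries.X : PowerSeries K) ^ (k + l) *
      ∑ u ∈ S, G u * PowerSeries.C (z u) * (Ψ (f u) * Ψ' (g u)) = 0 := by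
    rw [← key, mul_sum]
    refine sum_congr rfl fun u _ => ?_
    rw [hΨ, hΨ1, pow_add]
    ring
  have key3 := (mul_eq_zero.1 key2).resolve_left (pow_ne_zero _ PowerSeries.X_ne_zero)
  have key4 := congrArg PowerSeries.constantCoeff key3
  rw [map_zero, map_sum] at key4
  rw [← key4]
  refine sum_congr rfl fun u _ => ?_
  rw [map_mul, map_mul, map_mul, hΨ', hΨ1', PowerSeries.constantCoeff_C]
  ring

end

/-- **Collision**: if the limit system (spectators and cluster conditions) is empty, then the system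
with four points of multiplicity `m` in place of every cluster is empty. -/
theorem collide {N m : ℕ} {κ : Type} {e : κ → ℕ} {K : Type} [Field K] [CharZero K]
    (x y : Fin N → K) (x' y' : κ → K)
    (hx : ∀ i, x i ≠ 0) (hy : ∀ i, y i ≠ 0) (hx' : ∀ i, x' i ≠ 0) (hy' : ∀ i, y' i ≠ 0)
    (D E : Fin N → K × K) (S : Finset (ℤ × ℤ))
    (h : Sys S x' y' e ⊓ ⨅ i, Clu (x i) (y i) (D i) (E i) m = ⊥) :
    Emp (Sum.elim (fun _ : Fin N × (Fin 2 × Fin 2) => m) e) (↑S : Set (ℤ × ℤ)) := by
  classical
  have hcz : CharZero (LL K) := by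
    have h1 : Function.Injective ((io K).comp (PowerSeries.C (R := K))) :=
      ((io K).comp (PowerSeries.C (R := K))).injective
    exact charZero_of_injective_ringHom h1
  have hCne : ∀ z : K, z ≠ 0 → io K (PowerSeries.C z) ≠ 0 := by
    intro z hz h0
    apply hz
    have := ((io K).comp (PowerSeries.C (R := K))).injective (by
      rw [map_zero]; exact h0 : ((io K).comp (PowerSeries.C (R := K))) z =
        ((io K).comp (PowerSeries.C (R := K))) 0)
    exact this
  refine ⟨LL K, inferInstance, hcz,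
    Sum.elim (fun p => io K (PowerSeries.C (x p.1) *
      ee (((p.2.1 : ℕ) : K) * (D p.1).1 + ((p.2.2 : ℕ) : K) * (E p.1).1)))
      (fun j => io K (PowerSeries.C (x' j) * ee ((0 : K) * 1 + 0 * 0))),
    Sum.elim (fun p => io K (PowerSeries.C (y p.1) *
      ee (((p.2.1 : ℕ) : K) * (D p.1).2 + ((p.2.2 : ℕ) : K) * (E p.1).2)))
      (fun j => io K (PowerSeries.C (y' j) * ee ((0 : K) * 0 + 0 * 1))), ?_, ?_, ?_⟩
  · rintro (p | j)
    · simp only [Sum.elim_inl, map_mul]
      exact mul_ne_zero (hCne _ (hx _)) (io_ee_ne _)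
    · simp only [Sum.elim_inr, map_mul]
      exact mul_ne_zero (hCne _ (hx' _)) (io_ee_ne _)
  · rintro (p | j)
    · simp only [Sum.elim_inl, map_mul]
      exact mul_ne_zero (hCne _ (hy _)) (io_ee_ne _)
    · simp only [Sum.elim_inr, map_mul]
      exact mul_ne_zero (hCne _ (hy' _)) (io_ee_ne _)
  · intro f hfS hfL
    by_contra hf0
    have hfS' : f.support ⊆ S := by
      intro u hu
      exact mem_coe.1 (hfS (mem_coe.2 hu))
    obtain ⟨b, hb⟩ := IsLocalization.exist_integer_multiples (nonZeroDivisors (PowerSeries K)) S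
      (fun u => f u)
    have hb' : ∀ u ∈ S, ∃ g : PowerSeries K, io K g = io K (b : PowerSeries K) * f u := by
      intro u hu
      obtain ⟨g, hg⟩ := hb u hu
      refine ⟨g, ?_⟩
      have h1 : (b • f u : LL K) = io K (b : PowerSeries K) * f u := by
        rw [Submonoid.smul_def, Algebra.smul_def]
      rw [← h1]
      exact hg
    choose! G hG using hb'
    have hbne : io K (b : PowerSeries K) ≠ 0 := by
      intro h0
      have h1 : (b : PowerSeries K) = 0 := io_inj (by rw [h0, map_zero])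
      exact nonZeroDivisors.coe_ne_zero b h1
    obtain ⟨u0, hu0⟩ := Finsupp.support_nonempty_iff.2 hf0
    have hu0S := hfS' hu0
    have hG0 : G u0 ≠ 0 := by
      intro h0
      have h1 := hG u0 hu0S
      rw [h0, map_zero] at h1
      exact (mul_ne_zero hbne (Finsupp.mem_support_iff.1 hu0)) h1.symm
    obtain ⟨v, H, hH, u1, hu1, hne⟩ := norm_fam G ⟨u0, hu0S, hG0⟩
    have hXne : io K ((PowerSeries.X : PowerSeries K) ^ v) ≠ 0 := by
      intro h0
      have h1 : (PowerSeries.X : PowerSeries K) ^ v = 0 := io_inj (by rw [h0, map_zero])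
      exact pow_ne_zero _ PowerSeries.X_ne_zero h1
    obtain ⟨c, hc⟩ : ∃ c : LL K, c = io K (b : PowerSeries K) *
      (io K ((PowerSeries.X : PowerSeries K) ^ v))⁻¹ := ⟨_, rfl⟩
    have hFH : ∀ u ∈ S, (c • f) u = io K (H u) := by
      intro u hu
      rw [Finsupp.smul_apply, smul_eq_mul, hc]
      have h1 := hG u hu
      rw [hH u hu, map_mul] at h1
      rw [mul_right_comm, ← h1]
      field_simp
    have hFS : (c • f).support ⊆ S := (Finsupp.support_smul).trans hfS'
    have hFL : ∀ (X Y : LL K) (w : ℕ), LM f X Y w → LM (c • f) X Y w := by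
      intro X Y w hL P hP
      rw [pr_smul_left, hL P hP, mul_zero]
    -- the limit
    obtain ⟨g, hg⟩ : ∃ g : (ℤ × ℤ) →₀ K, g = Finsupp.onFinset S
        (fun u => if u ∈ S then PowerSeries.constantCoeff (H u) else 0) (by
          intro u hu
          by_contra hnot
          exact hu (if_neg hnot)) := ⟨_, rfl⟩
    have hgS : g.support ⊆ S := by rw [hg]; exact Finsupp.support_onFinset_subset
    have hgu : ∀ u ∈ S, g u = PowerSeries.constantCoeff (H u) := by
      intro u hu
      rw [hg, Finsupp.onFinset_apply, if_pos hu]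
    have hgne : g ≠ 0 := by
      intro h0
      apply hne
      rw [← hgu u1 hu1, h0, Finsupp.zero_apply]
    apply hgne
    have hmem : g ∈ Sys S x' y' e ⊓ ⨅ i, Clu (x i) (y i) (D i) (E i) m := by
      refine ⟨⟨?_, ?_⟩, ?_⟩
      · rw [SetLike.mem_coe, Finsupp.mem_supported]
        intro u hu
        exact mem_coe.2 (hgS (mem_coe.1 hu))
      · rw [SetLike.mem_coe, Submodule.mem_iInf]
        intro j
        rw [mem_Mul]
        apply LM_of_mono
        intro a b' hab
        have h1 := sum_zero (D := ((1 : K), (0 : K))) (E := ((0 : K), (1 : K))) (hx' j) (hy' j) hFS hFH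
          (hFL _ _ _ (hfL (Sum.inr j))) hab
        have h2 := congrArg PowerSeries.constantCoeff h1
        rw [map_zero, map_sum] at h2
        rw [pr_eq_sum hgS, ← h2]
        refine sum_congr rfl fun u hu => ?_
        rw [map_mul, map_mul, ee_const, PowerSeries.constantCoeff_C, hgu u hu]
        unfold lin
        simp only [one_mul, zero_mul, add_zero, zero_add, mul_one]
        ring
      · rw [SetLike.mem_coe, Submodule.mem_iInf]
        intro i
        unfold Clu
        simp only [Submodule.mem_iInf]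
        intro k l hkl
        rw [mem_Ker, pr_eq_sum hgS]
        have h1 := limit_cond (S := S) (G := H) (z := fun u => x i ^ u.1 * y i ^ u.2)
          (f := fun u => lin (D i) ((u.1 : K), (u.2 : K))) (g := fun u => lin (E i) ((u.1 : K), (u.2 : K)))
          (m := m) (fun a b' p q hpq => sum_zero (hx i) (hy i) hFS hFH
            (hFL _ _ _ (hfL (Sum.inl (i, (a, b'))))) hpq) hkl
        rw [← h1]
        refine sum_congr rfl fun u hu => ?_
        rw [hgu u hu]
        unfold qq
        ring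
    rw [h] at hmem
    exact (Submodule.mem_bot K).1 hmem

end Pool.Agent.TH763.DB
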